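import Mathlib

/-!
Circuits with unordered gates of unbounded fan-in whose value may depend on the number of true
inputs modulo `D`, a proof system for them, and the pigeonhole principle.
-/

namespace Pool.Agent.H66.SM

/-- An unordered gate.  Its value may depend on: is some input true, is some input false, and
the number of true inputs modulo `D`. -/
abbrev Gate (D : ℕ) : Type := Bool → Bool → ZMod D → Bool

/-- disjunction of all inputs -/
def gOr (D : ℕ) : Gate D := fun t _ _ => t

/-- conjunction of all inputs -/
def gAnd (D : ℕ) : Gate D := fun _ f _ => !f

/-- negation (used with one input) -/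
def gNeg (D : ℕ) : Gate D := fun t _ _ => !t

/-- the number of true inputs is divisible by `D` -/
def gMod (D : ℕ) : Gate D := fun _ _ r => decide (r = 0)

/-- What a node of a circuit is: a variable, an implication between two nodes, or an unordered
gate applied to a multiset of nodes. -/
inductive Kind (V : Type) (D : ℕ) (N : Type) : Type
  | var : V → Kind V D N
  | imp : N → N → Kind V D N
  | gate : Gate D → Multiset N → Kind V D N

/-- Renaming of variables and nodes. -/
def Kind.map {V : Type} {D : ℕ} {N : Type} (s : V → V) (a : N → N) : Kind V D N → Kind V D N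
  | .var v => .var (s v)
  | .imp x y => .imp (a x) (a y)
  | .gate g S => .gate g (S.map a)

/-- A circuit with set of nodes `N` over the variables `V`; `rk` shows that it has no cycles. -/
structure Circuit (V : Type) (D : ℕ) (N : Type) where
  /-- what each node is -/
  kind : N → Kind V D N
  /-- a rank which decreases from a node to its inputs -/
  rk : N → ℕ
  imp_rk : ∀ u a b, kind u = .imp a b → rk a < rk u ∧ rk b < rk u
  gate_rk : ∀ u g S, kind u = .gate g S → ∀ a ∈ S, rk a < rk u

/-- Axiom schemes: built with implication from formula variables and from gates applied to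
formula variables (first multiset) and multiset variables (second multiset). -/
inductive Sch (D : ℕ) : Type
  | fv : ℕ → Sch D
  | imp : Sch D → Sch D → Sch D
  | gate : Gate D → Multiset ℕ → Multiset ℕ → Sch D

namespace Sch

variable {D : ℕ}

/-- The size of a scheme: the number of occurrences of formula variables, implications, gates. -/
def size : Sch D → ℕ
  | fv _ => 1
  | imp a b => a.size + b.size + 1
  | gate _ fs _ => Multiset.card fs + 1

/-- Truth of a scheme when the formula variable `i` has the truth value `p i` and the multiset
variable `i` stands for a multiset with `t i` true and `f i` false elements. -/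
def Holds (p : ℕ → Bool) (t f : ℕ → ℕ) : Sch D → Prop
  | fv i => p i = true
  | imp a b => a.Holds p t f → b.Holds p t f
  | gate g fs ms =>
      g (decide (0 < Multiset.card (fs.filter (fun i => p i = true)) + (ms.map t).sum))
        (decide (0 < Multiset.card (fs.filter (fun i => p i = false)) + (ms.map f).sum))
        ((Multiset.card (fs.filter (fun i => p i = true)) + (ms.map t).sum : ℕ) : ZMod D) = true

/-- A scheme is sound if it is always true. -/
def Sound (S : Sch D) : Prop := ∀ p t f, S.Holds p t f

/-- The node `u` is the instance of a scheme given by nodes `θ i` for the formula variables and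
multisets `Θ i` of nodes for the multiset variables. -/
def Inst {V N : Type} (C : Circuit V D N) (θ : ℕ → N) (Θ : ℕ → Multiset N) : Sch D → N → Prop
  | fv i, u => u = θ i
  | imp a b, u => ∃ v w, C.kind u = .imp v w ∧ a.Inst C θ Θ v ∧ b.Inst C θ Θ w
  | gate g fs ms, u => C.kind u = .gate g (fs.map θ + ms.bind Θ)

end Sch

/-- `Der C r Hyp u`: the node `u` can be derived from the hypotheses `Hyp` inside the circuit `C`
(all formulas of the derivation are nodes of `C`).  The rules are: instances of sound schemes of
size at most `r`; modus ponens; from `a → v` for all inputs `v` of a conjunction `w` infer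
`a → w`; from `v → a` for all inputs `v` of a disjunction `w` infer `w → a`; and the sum axiom:
if all of the multisets `Γ v` have a number of true elements divisible by `D`, then so has their
union. -/
inductive Der {V : Type} {D : ℕ} {N : Type} (C : Circuit V D N) (r : ℕ) (Hyp : N → Prop) :
    N → Prop
  | hyp (u : N) : Hyp u → Der C r Hyp u
  | ax (S : Sch D) (θ : ℕ → N) (Θ : ℕ → Multiset N) (u : N) :
      S.Sound → S.size ≤ r → S.Inst C θ Θ u → Der C r Hyp u
  | mp (a b u : N) : C.kind u = .imp a b → Der C r Hyp a → Der C r Hyp u → Der C r Hyp b
  | all (e a w : N) (S : Multiset N) (i : N → N) : C.kind e = .imp a w →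
      C.kind w = .gate (gAnd D) S → (∀ v ∈ S, C.kind (i v) = .imp a v) →
      (∀ v ∈ S, Der C r Hyp (i v)) → Der C r Hyp e
  | any (e a w : N) (S : Multiset N) (i : N → N) : C.kind e = .imp w a →
      C.kind w = .gate (gOr D) S → (∀ v ∈ S, C.kind (i v) = .imp v a) →
      (∀ v ∈ S, Der C r Hyp (i v)) → Der C r Hyp e
  | sum (e w G : N) (S : Multiset N) (Γ : N → Multiset N) : C.kind e = .imp w G →
      C.kind w = .gate (gAnd D) S → (∀ v ∈ S, C.kind v = .gate (gMod D) (Γ v)) →
      C.kind G = .gate (gMod D) (S.bind Γ) → Der C r Hyp e

/-- The hypotheses of the pigeonhole principle with pigeons `P` and holes `H`, as nodes of a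
circuit: every pigeon has a hole, every hole has a pigeon, no pigeon has two holes, no hole has
two pigeons. -/
inductive PhpHyp {P H : Type} [Fintype P] [Fintype H] {D : ℕ} {N : Type}
    (C : Circuit (P × H) D N) : N → Prop
  | pigeon (u : N) (S : Multiset N) (i : P) : C.kind u = .gate (gOr D) S →
      S.map C.kind = Finset.univ.val.map (fun j => Kind.var (i, j)) → PhpHyp C u
  | hole (u : N) (S : Multiset N) (j : H) : C.kind u = .gate (gOr D) S →
      S.map C.kind = Finset.univ.val.map (fun i => Kind.var (i, j)) → PhpHyp C u
  | fn (u a b' b : N) (i : P) (j j' : H) : C.kind u = .imp a b' → C.kind b' = .gate (gNeg D) {b} →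
      C.kind a = .var (i, j) → C.kind b = .var (i, j') → j ≠ j' → PhpHyp C u
  | inj (u a b' b : N) (i i' : P) (j : H) : C.kind u = .imp a b' →
      C.kind b' = .gate (gNeg D) {b} →
      C.kind a = .var (i, j) → C.kind b = .var (i', j) → i ≠ i' → PhpHyp C u

/-- The circuit contains a refutation of the pigeonhole hypotheses: the empty disjunction is
derivable. -/
def RefutesPhp {P H : Type} [Fintype P] [Fintype H] {D : ℕ} {N : Type}
    (C : Circuit (P × H) D N) (r : ℕ) : Prop :=
  ∃ u, C.kind u = .gate (gOr D) 0 ∧ Der C r (PhpHyp C) u

/-- A circuit over the variables of the pigeonhole principle is symmetric for an action of the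
permutations of the pigeons on its nodes if this action renames the variables accordingly. -/
def SymmetricCircuit {P H : Type} {D : ℕ} {N : Type} [MulAction (Equiv.Perm P) N]
    (C : Circuit (P × H) D N) : Prop :=
  ∀ (σ : Equiv.Perm P) (u : N), C.kind (σ • u) = (C.kind u).map (fun v => (σ v.1, v.2)) (σ • ·)

end Pool.Agent.H66.SM
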