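import Pool.Agent.H66.SM.Defs
import Pool.Agent.H66.SF.Eval

/-!
Evaluation of symmetric circuits by near-perfect matchings.
-/

set_option linter.unusedSectionVars false

namespace Pool.Agent.H66.SM
open Equiv Equiv.Perm Pool.Agent.H66.SF

section

variable {P H : Type} [Fintype P] [DecidableEq P] [Fintype H] [DecidableEq H] {D : ℕ} {N : Type}
  [MulAction (Perm P) N]

/-- the support of a node -/
noncomputable def sup (u : N) : Finset P := supp (MulAction.stabilizer (Perm P) u) Finset.univ

theorem sup_smul (σ : Perm P) (u : N) : (sup (σ • u) : Finset P) = (sup u).image σ := by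
  unfold sup
  apply supp_conj (Finset.subset_univ _)
  · intro g hg
    rw [MulAction.mem_stabilizer_iff] at hg ⊢
    rw [mul_smul, mul_smul, inv_smul_smul, hg]
  · intro g hg
    rw [MulAction.mem_stabilizer_iff] at hg ⊢
    rw [mul_smul, mul_smul, hg, inv_smul_smul]

theorem smul_eq_self {σ : Perm P} {u : N} (hP : 2 ≤ Fintype.card P) (h1 : sign σ = 1)
    (h2 : ∀ a ∈ (sup u : Finset P), σ a = a) : σ • u = u := by
  rw [← MulAction.mem_stabilizer_iff]
  apply even_mem (Q := Finset.univ) (by simpa using hP) h1
  rw [Finset.disjoint_left]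
  intro a ha haS
  exact (mem_support.1 ha) (h2 a haS)

theorem sup_card_lt [Fintype N] {t : ℕ} (ht : Fintype.card N < 2 ^ t)
    (hP : 6 * t ≤ Fintype.card P) (u : N) : (sup u : Finset P).card < 3 * t := by
  classical
  have h := supp_inter_card_lt (MulAction.stabilizer (Perm P) u) (Q := Finset.univ)
    (N := Fintype.card N) (t := t) ?_ ht (by simpa using hP)
  · rwa [Finset.inter_univ] at h
  · intro T _ hT
    have : (T.image (fun σ : Perm P => σ • u)).card = T.card := by
      apply Finset.card_image_of_injOn
      intro σ hσ τ hτ h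
      apply hT σ hσ τ hτ
      rw [MulAction.mem_stabilizer_iff, mul_smul]
      have h' : σ • u = τ • u := h
      rw [← h', inv_smul_smul]
    rw [← this]
    exact Finset.card_le_univ _

/-- the unmatched pigeons -/
def free (f : P → Option H) : Finset P := Finset.univ.filter (fun i => f i = none)

theorem mem_free {f : P → Option H} {i : P} : i ∈ free f ↔ f i = none := by simp [free]

/-- transport of a partial matching -/
def tr (σ : Perm P) (f : P → Option H) : P → Option H := fun i => f (σ⁻¹ i)

/-- a node is visible if its support avoids the unmatched pigeons -/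
def Vis (f : P → Option H) (u : N) : Prop := ∀ i ∈ (sup u : Finset P), f i ≠ none

theorem vis_smul (σ : Perm P) (f : P → Option H) (u : N) :
    Vis (tr σ f) (σ • u) ↔ Vis f u := by
  unfold Vis
  rw [sup_smul]
  constructor
  · intro h i hi
    have := h (σ i) (Finset.mem_image_of_mem _ hi)
    simpa [tr] using this
  · intro h i hi
    obtain ⟨j, hj, rfl⟩ := Finset.mem_image.1 hi
    simpa [tr] using h j hj

open Classical in
/-- number of visible true elements of a multiset of nodes, for a given notion of truth -/
noncomputable def cntOf (f : P → Option H) (w : N → Prop) (S : Multiset N) : ℕ :=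
  S.countP (fun v => Vis f v ∧ w v)

open Classical in
/-- evaluation of the nodes of a circuit: gates only see their visible inputs -/
noncomputable def ev (C : Circuit (P × H) D N) (f : P → Option H) : N → Prop :=
  (measure C.rk).wf.fix (fun u ih => match C.kind u with
    | .var v => f v.1 = some v.2
    | .imp a b => (∃ h : (measure C.rk).rel a u, ih a h) → (∃ h : (measure C.rk).rel b u, ih b h)
    | .gate g S =>
        g (decide (0 < cntOf f (fun v => ∃ h : (measure C.rk).rel v u, ih v h) S))
          (decide (0 < cntOf f (fun v => ¬ ∃ h : (measure C.rk).rel v u, ih v h) S))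
          ((cntOf f (fun v => ∃ h : (measure C.rk).rel v u, ih v h) S : ℕ) : ZMod D) = true)

theorem ev_eq (C : Circuit (P × H) D N) (f : P → Option H) (u : N) :
    ev C f u = (match C.kind u with
    | .var v => f v.1 = some v.2
    | .imp a b => (∃ _ : (measure C.rk).rel a u, ev C f a) →
        (∃ _ : (measure C.rk).rel b u, ev C f b)
    | .gate g S =>
        g (decide (0 < cntOf f (fun v => ∃ _ : (measure C.rk).rel v u, ev C f v) S))
          (decide (0 < cntOf f (fun v => ¬ ∃ _ : (measure C.rk).rel v u, ev C f v) S))
          ((cntOf f (fun v => ∃ _ : (measure C.rk).rel v u, ev C f v) S : ℕ) : ZMod D) = true) := by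
  unfold ev
  rw [WellFounded.fix_eq]

theorem cntOf_congr {f : P → Option H} {w w' : N → Prop} {S : Multiset N}
    (h : ∀ v ∈ S, (w v ↔ w' v)) : cntOf f w S = cntOf f w' S := by
  classical
  unfold cntOf
  apply Multiset.countP_congr rfl
  intro v hv
  rw [h v hv]

theorem ev_var {C : Circuit (P × H) D N} {f : P → Option H} {u : N} {v : P × H}
    (h : C.kind u = .var v) : ev C f u ↔ f v.1 = some v.2 := by
  rw [ev_eq, h]

theorem ev_imp {C : Circuit (P × H) D N} {f : P → Option H} {u a b : N}
    (h : C.kind u = .imp a b) : ev C f u ↔ (ev C f a → ev C f b) := by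
  rw [ev_eq, h]
  have h1 := (C.imp_rk u a b h).1
  have h2 := (C.imp_rk u a b h).2
  constructor
  · intro h3 h4
    obtain ⟨_, h5⟩ := h3 ⟨h1, h4⟩
    exact h5
  · rintro h3 ⟨_, h4⟩
    exact ⟨h2, h3 h4⟩

/-- number of visible true / false elements -/
noncomputable def cT (C : Circuit (P × H) D N) (f : P → Option H) (S : Multiset N) : ℕ :=
  cntOf f (ev C f) S

/-- number of visible false elements -/
noncomputable def cF (C : Circuit (P × H) D N) (f : P → Option H) (S : Multiset N) : ℕ :=
  cntOf f (fun v => ¬ ev C f v) S

theorem ev_gate {C : Circuit (P × H) D N} {f : P → Option H} {u : N} {g : Gate D}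
    {S : Multiset N} (h : C.kind u = .gate g S) :
    ev C f u ↔ g (decide (0 < cT C f S)) (decide (0 < cF C f S)) ((cT C f S : ℕ) : ZMod D) = true := by
  have e1 : cntOf f (fun v => ∃ _ : (measure C.rk).rel v u, ev C f v) S = cT C f S := by
    apply cntOf_congr
    intro v hv
    have := C.gate_rk u g S h v hv
    exact ⟨fun ⟨_, h1⟩ => h1, fun h1 => ⟨this, h1⟩⟩
  have e2 : cntOf f (fun v => ¬ ∃ _ : (measure C.rk).rel v u, ev C f v) S = cF C f S := by
    apply cntOf_congr
    intro v hv
    have := C.gate_rk u g S h v hv
    exact not_congr ⟨fun ⟨_, h1⟩ => h1, fun h1 => ⟨this, h1⟩⟩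
  rw [ev_eq, h]
  simp only
  rw [e1, e2]

theorem cntOf_map (σ : Perm P) (f : P → Option H) (w w' : N → Prop) (S : Multiset N)
    (h : ∀ v ∈ S, (w' (σ • v) ↔ w v)) :
    cntOf (tr σ f) w' (S.map (σ • ·)) = cntOf f w S := by
  classical
  unfold cntOf
  rw [Multiset.countP_map, Multiset.countP_eq_card_filter]
  congr 1
  apply Multiset.filter_congr
  intro v hv
  rw [vis_smul, h v hv]

theorem ev_smul {C : Circuit (P × H) D N} (hC : SymmetricCircuit C) (σ : Perm P)
    (f : P → Option H) (u : N) : ev C (tr σ f) (σ • u) ↔ ev C f u := by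
  induction hk : C.rk u using Nat.strong_induction_on generalizing u with
  | _ k ih =>
    subst hk
    have hs := hC σ u
    cases hu : C.kind u with
    | var v =>
      rw [hu] at hs
      rw [ev_var hu, ev_var hs]
      simp [tr]
    | imp a b =>
      rw [hu] at hs
      have := C.imp_rk u a b hu
      rw [ev_imp hu, ev_imp hs, ih _ this.1 a rfl, ih _ this.2 b rfl]
    | gate g S =>
      rw [hu] at hs
      have h1 := C.gate_rk u g S hu
      have hs' : C.kind (σ • u) = .gate g (S.map (σ • ·)) := hs
      rw [ev_gate hu, ev_gate hs']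
      have e1 : cT C (tr σ f) (S.map (σ • ·)) = cT C f S :=
        cntOf_map σ f _ _ S (fun v hv => ih _ (h1 v hv) v rfl)
      have e2 : cF C (tr σ f) (S.map (σ • ·)) = cF C f S :=
        cntOf_map σ f _ _ S (fun v hv => not_congr (ih _ (h1 v hv) v rfl))
      rw [e1, e2]

/-- every hole is used exactly once -/
def Full (f : P → Option H) : Prop := ∀ j, ∃! i, f i = some j

theorem Full.inj {f : P → Option H} (hf : Full f) {i i' : P} {j : H} (h1 : f i = some j)
    (h2 : f i' = some j) : i = i' := (hf j).unique h1 h2

theorem Full.tr {f : P → Option H} (hf : Full f) (σ : Perm P) : Full (tr σ f) := by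
  intro j
  obtain ⟨i, h1, h2⟩ := hf j
  refine ⟨σ i, by simpa [SM.tr] using h1, ?_⟩
  intro i' h3
  have := h2 (σ⁻¹ i') h3
  rw [← this]; simp

theorem card_some {f : P → Option H} (hf : Full f) :
    (Finset.univ.filter (fun i => f i ≠ none)).card = Fintype.card H := by
  classical
  choose m hm1 hm2 using hf
  have : (Finset.univ : Finset H).image m = Finset.univ.filter (fun i => f i ≠ none) := by
    ext i
    simp only [Finset.mem_image, Finset.mem_univ, true_and, Finset.mem_filter]
    constructor
    · rintro ⟨j, rfl⟩
      rw [hm1 j]; simp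
    · intro h
      obtain ⟨j, hj⟩ := Option.ne_none_iff_exists'.1 h
      exact ⟨j, (hm2 j i hj).symm⟩
  rw [← this, Finset.card_image_of_injective, Finset.card_univ]
  intro j j' h
  have h1 := hm1 j
  have h2 := hm1 j'
  rw [h] at h1
  rw [h1] at h2
  exact Option.some_injective _ h2

theorem card_free {f : P → Option H} (hf : Full f) :
    (free f).card + Fintype.card H = Fintype.card P := by
  classical
  have h1 := card_some hf
  have h2 : (Finset.univ : Finset P).card = (free f).card +
      (Finset.univ.filter (fun i => f i ≠ none)).card := by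
    unfold free
    rw [Finset.card_filter_add_card_filter_not]
  rw [← h1, ← h2, Finset.card_univ]

/-- two full partial matchings are conjugate by an even permutation which fixes all pigeons on
which they agree (and are defined) -/
theorem exists_even {f f' : P → Option H} (hf : Full f) (hf' : Full f')
    (hM : 2 ≤ (free f).card) :
    ∃ σ : Perm P, sign σ = 1 ∧ tr σ f = f' ∧ ∀ i, f i ≠ none → f i = f' i → σ i = i := by
  classical
  have hfib : ∀ y : Option H, Nonempty ({x // f x = y} ≃ {x // f' x = y}) := by
    intro y
    refine ⟨Fintype.equivOfCardEq ?_⟩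
    cases y with
    | none =>
      have h1 := card_free hf
      have h2 := card_free hf'
      rw [Fintype.card_subtype, Fintype.card_subtype]
      have e1 : (Finset.univ.filter (fun x => f x = none)) = free f := rfl
      have e2 : (Finset.univ.filter (fun x => f' x = none)) = free f' := rfl
      rw [e1, e2]
      omega
    | some j =>
      obtain ⟨i, h1, h2⟩ := hf j
      obtain ⟨i', h1', h2'⟩ := hf' j
      have e1 : Fintype.card {x // f x = some j} = 1 :=
        Fintype.card_eq_one_iff.2 ⟨⟨i, h1⟩, fun ⟨x, hx⟩ => Subtype.ext (h2 x hx)⟩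
      have e2 : Fintype.card {x // f' x = some j} = 1 :=
        Fintype.card_eq_one_iff.2 ⟨⟨i', h1'⟩, fun ⟨x, hx⟩ => Subtype.ext (h2' x hx)⟩
      rw [e1, e2]
  have e : ∀ y : Option H, ({x // f x = y} ≃ {x // f' x = y}) := fun y => Classical.choice (hfib y)
  let π : Perm P := ((Equiv.sigmaFiberEquiv f).symm.trans (Equiv.sigmaCongrRight e)).trans
    (Equiv.sigmaFiberEquiv f')
  have hπ : ∀ x, f' (π x) = f x := by
    intro x
    have : π x = (e (f x) ⟨x, rfl⟩ : {y // f' y = f x}).1 := rfl
    rw [this]
    exact (e (f x) ⟨x, rfl⟩).2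
  have hfix : ∀ i, f i ≠ none → f i = f' i → π i = i := by
    intro i h1 h2
    obtain ⟨j, hj⟩ := Option.ne_none_iff_exists'.1 h1
    have h3 := hπ i
    rw [hj] at h3 h2
    exact hf'.inj h3 h2.symm
  rcases Int.units_eq_one_or (sign π) with h | h
  · refine ⟨π, h, ?_, hfix⟩
    funext x
    have := hπ (π⁻¹ x)
    simpa [tr] using this.symm
  · obtain ⟨z, hz, z', hz', hne⟩ := Finset.one_lt_card.1 (show 1 < (free f).card by omega)
    rw [mem_free] at hz hz'
    have hsw : ∀ x, f (swap z z' x) = f x := by
      intro x
      by_cases h1 : x = z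
      · subst h1; rw [swap_apply_left, hz, hz']
      by_cases h2 : x = z'
      · subst h2; rw [swap_apply_right, hz, hz']
      rw [swap_apply_of_ne_of_ne h1 h2]
    refine ⟨π * swap z z', ?_, ?_, ?_⟩
    · rw [Perm.sign_mul, h, sign_swap hne]; norm_num
    · funext x
      have h1 := hπ ((swap z z') ((π * swap z z')⁻¹ x))
      have h2 : π ((swap z z') ((π * swap z z')⁻¹ x)) = x := by
        have : (π * swap z z') ((π * swap z z')⁻¹ x) = x := by simp
        exact this
      rw [h2, hsw] at h1
      exact h1.symm
    · intro i h1 h2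
      rw [Perm.mul_apply, swap_apply_of_ne_of_ne]
      · exact hfix i h1 h2
      · rintro rfl; exact h1 hz
      · rintro rfl; exact h1 hz'

/-- the value of a visible node depends only on the matching of its support -/
theorem ev_local {C : Circuit (P × H) D N} (hC : SymmetricCircuit C) {f f' : P → Option H}
    (hf : Full f) (hf' : Full f') (hM : 2 ≤ (free f).card) {u : N} (hv : Vis f u)
    (ha : ∀ i ∈ (sup u : Finset P), f i = f' i) : ev C f u ↔ ev C f' u := by
  obtain ⟨σ, h1, h2, h3⟩ := exists_even hf hf' hM
  have hfix : σ • u = u := by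
    apply smul_eq_self _ h1
    · intro i hi
      exact h3 i (hv i hi) (ha i hi)
    · have := Finset.card_le_univ (free f)
      omega
  have := ev_smul hC σ f u
  rw [h2, hfix] at this
  exact this.symm

/-- a full partial matching can be changed so that a given small set is matched -/
theorem exists_avoid {f : P → Option H} (hf : Full f) {W : Finset P}
    (hW : 2 * W.card ≤ Fintype.card H) :
    ∃ f' : P → Option H, Full f' ∧ (∀ i, i ∈ W → f i ≠ none → f' i = f i) ∧
      (∀ i ∈ W, f' i ≠ none) ∧ (free f').card = (free f).card := by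
  classical
  set A := W.filter (fun i => f i = none) with hA
  set B := (Finset.univ.filter (fun i => f i ≠ none)) \ W with hB
  have hAc : A.card ≤ W.card := Finset.card_filter_le _ _
  have hBc : W.card ≤ B.card := by
    have h1 := card_some hf
    have h2 : (Finset.univ.filter (fun i => f i ≠ none)).card - W.card ≤ B.card := by
      rw [hB]; exact Finset.le_card_sdiff _ _
    omega
  obtain ⟨B', hB'B, hB'c⟩ := Finset.exists_subset_card_eq (s := B) (n := A.card) (by omega)
  have hd : Disjoint A B' := by
    rw [Finset.disjoint_left]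
    intro x h1 h2
    have := hB'B h2
    rw [hB, Finset.mem_sdiff] at this
    exact this.2 (Finset.mem_filter.1 h1).1
  obtain ⟨φ, hφ, hφ1, hφ2⟩ := exists_involution hd hB'c.symm
  let π : Perm P := hφ.toPerm
  have hπ : ∀ x, π⁻¹ x = φ x := fun x => rfl
  refine ⟨tr π f, hf.tr π, ?_, ?_, ?_⟩
  · intro i hi h
    show f (π⁻¹ i) = f i
    rw [hπ, hφ2 i]
    · intro h1; exact h (Finset.mem_filter.1 h1).2
    · intro h1
      have := hB'B h1
      rw [hB, Finset.mem_sdiff] at this
      exact this.2 hi
  · intro i hi
    show f (π⁻¹ i) ≠ none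
    rw [hπ]
    by_cases h : f i = none
    · have h1 := hB'B (hφ1 i (Finset.mem_filter.2 ⟨hi, h⟩))
      rw [hB, Finset.mem_sdiff, Finset.mem_filter] at h1
      exact h1.1.2
    · rw [hφ2 i]
      · exact h
      · intro h1; exact h (Finset.mem_filter.1 h1).2
      · intro h1
        have := hB'B h1
        rw [hB, Finset.mem_sdiff] at this
        exact this.2 hi
  · have h1 := card_free hf
    have h2 := card_free (hf.tr π)
    omega

end

end Pool.Agent.H66.SM
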