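import Pool.Agent.H66.SM.Eval

/-!
Soundness of the rules for the evaluation by near-perfect matchings, and the lower bound.
-/

set_option linter.unusedSectionVars false

namespace Pool.Agent.H66.SM
open Equiv Equiv.Perm Pool.Agent.H66.SF

section

variable {P H : Type} [Fintype P] [DecidableEq P] [Fintype H] [DecidableEq H] {D : ℕ} {N : Type}
  [MulAction (Perm P) N]

/-- two subsets of the same size of a set with at least three elements are exchanged by an even
permutation of this set -/
theorem exists_even_image {Z T T' : Finset P} (hT : T ⊆ Z) (hT' : T' ⊆ Z) (hc : T.card = T'.card)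
    (hZ : 3 ≤ Z.card) :
    ∃ σ : Perm P, sign σ = 1 ∧ (∀ i, i ∉ Z → σ i = i) ∧ T.image σ = T' := by
  classical
  have hc' : (T \ T').card = (T' \ T).card := by
    have h1 := Finset.card_sdiff_add_card_inter T T'
    have h2 := Finset.card_sdiff_add_card_inter T' T
    rw [Finset.inter_comm] at h2
    omega
  have hd : Disjoint (T \ T') (T' \ T) := by
    rw [Finset.disjoint_left]
    intro x h1 h2
    exact (Finset.mem_sdiff.1 h1).2 (Finset.mem_sdiff.1 h2).1
  obtain ⟨φ, hφ, hφ1, hφ2⟩ := exists_involution hd hc'
  let π : Perm P := hφ.toPerm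
  have hπ : ∀ x, π x = φ x := fun x => rfl
  have hout : ∀ i, i ∉ Z → π i = i := by
    intro i hi
    rw [hπ]
    apply hφ2
    · intro h; exact hi (hT (Finset.mem_sdiff.1 h).1)
    · intro h; exact hi (hT' (Finset.mem_sdiff.1 h).1)
  have himg : T.image π = T' := by
    apply Finset.eq_of_subset_of_card_le
    · intro x hx
      obtain ⟨y, hy, rfl⟩ := Finset.mem_image.1 hx
      rw [hπ]
      by_cases h : y ∈ T'
      · rw [hφ2 y]
        · exact h
        · intro h1; exact (Finset.mem_sdiff.1 h1).2 h
        · intro h1; exact (Finset.mem_sdiff.1 h1).2 hy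
      · exact (Finset.mem_sdiff.1 (hφ1 y (Finset.mem_sdiff.2 ⟨hy, h⟩))).1
    · rw [Finset.card_image_of_injective _ π.injective, hc]
  rcases Int.units_eq_one_or (sign π) with h | h
  · exact ⟨π, h, hout, himg⟩
  · -- a transposition which preserves `T`
    have htr : ∃ z ∈ Z, ∃ z' ∈ Z, z ≠ z' ∧ (z ∈ T ↔ z' ∈ T) := by
      by_cases h2 : 2 ≤ T.card
      · obtain ⟨z, hz, z', hz', hne⟩ := Finset.one_lt_card.1 (show 1 < T.card by omega)
        exact ⟨z, hT hz, z', hT hz', hne, by simp [hz, hz']⟩
      · have h3 : 1 < (Z \ T).card := by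
          rw [Finset.card_sdiff_of_subset hT]; omega
        obtain ⟨z, hz, z', hz', hne⟩ := Finset.one_lt_card.1 h3
        rw [Finset.mem_sdiff] at hz hz'
        exact ⟨z, hz.1, z', hz'.1, hne, by simp [hz.2, hz'.2]⟩
    obtain ⟨z, hz, z', hz', hne, hiff⟩ := htr
    refine ⟨π * swap z z', ?_, ?_, ?_⟩
    · rw [Perm.sign_mul, h, sign_swap hne]; norm_num
    · intro i hi
      rw [Perm.mul_apply, swap_apply_of_ne_of_ne]
      · exact hout i hi
      · rintro rfl; exact hi hz
      · rintro rfl; exact hi hz'
    · have hT2 : T.image (swap z z') = T := by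
        apply Finset.eq_of_subset_of_card_le
        · intro x hx
          obtain ⟨y, hy, rfl⟩ := Finset.mem_image.1 hx
          by_cases h1 : y = z
          · subst h1; rw [swap_apply_left]; exact hiff.1 hy
          by_cases h2 : y = z'
          · subst h2; rw [swap_apply_right]; exact hiff.2 hy
          rwa [swap_apply_of_ne_of_ne h1 h2]
        · rw [Finset.card_image_of_injective _ (swap z z').injective]
      have : T.image (π * swap z z') = (T.image (swap z z')).image π := by
        rw [Finset.image_image]; rfl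
      rw [this, hT2, himg]

/-- The contribution of the invisible elements of an invariant multiset is divisible by `D`. -/
theorem dvd_invisible {f : P → Option H} {S : Multiset N} {c : N → ℕ} {s : ℕ}
    (hS : ∀ σ : Perm P, sign σ = 1 → (∀ i, i ∉ free f → σ i = i) → S.map (σ • ·) = S)
    (hc : ∀ σ : Perm P, sign σ = 1 → (∀ i, i ∉ free f → σ i = i) → ∀ v ∈ S, c (σ • v) = c v)
    (hD : ∀ t, 1 ≤ t → t ≤ s → D ∣ (free f).card.choose t)
    (hs : ∀ u : N, (sup u : Finset P).card ≤ s) (h3 : 3 ≤ (free f).card) (q : N → ℕ)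
    (hq1 : ∀ v, Vis f v → q v = 0) (hq2 : ∀ v, ¬ Vis f v → q v = c v) :
    D ∣ (S.map q).sum := by
  classical
  set Z := free f with hZ
  let F : Finset P → ℕ := fun T => (S.map (fun v => if sup v ∩ Z = T then c v else 0)).sum
  let F' : Finset P → ℕ := fun T => if T = ∅ then 0 else F T
  have hvis : ∀ v : N, Vis f v ↔ sup v ∩ Z = ∅ := by
    intro v
    constructor
    · intro h
      ext i
      simp only [Finset.mem_inter, Finset.notMem_empty, iff_false, not_and]
      intro hi hiZ
      exact h i hi (mem_free.1 hiZ)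
    · intro h i hi hn
      have : i ∈ sup v ∩ Z := Finset.mem_inter.2 ⟨hi, mem_free.2 hn⟩
      rw [h] at this
      simp at this
  have claim1 : (S.map q).sum = ∑ T ∈ Z.powerset, F' T := by
    have gen : ∀ R : Multiset N, (R.map q).sum = ∑ T ∈ Z.powerset,
        (if T = ∅ then 0 else (R.map (fun v => if sup v ∩ Z = T then c v else 0)).sum) := by
      intro R
      induction R using Multiset.induction_on with
      | empty => simp
      | cons a R ih =>
        rw [Multiset.map_cons, Multiset.sum_cons, ih]
        have e : ∀ T, (if T = ∅ then 0 else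
            ((a ::ₘ R).map (fun v => if sup v ∩ Z = T then c v else 0)).sum) =
            (if T = ∅ then 0 else (if sup a ∩ Z = T then c a else 0)) +
            (if T = ∅ then 0 else (R.map (fun v => if sup v ∩ Z = T then c v else 0)).sum) := by
          intro T
          split_ifs <;> simp_all
        rw [Finset.sum_congr rfl (fun T _ => e T), Finset.sum_add_distrib]
        congr 1
        have e2 : ∀ T ∈ Z.powerset, (if T = ∅ then 0 else (if sup a ∩ Z = T then c a else 0)) =
            if sup a ∩ Z = T then q a else 0 := by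
          intro T _
          by_cases h1 : T = ∅
          · subst h1
            rw [if_pos rfl]
            by_cases h2 : sup a ∩ Z = ∅
            · rw [if_pos h2, hq1 a ((hvis a).2 h2)]
            · rw [if_neg h2]
          · rw [if_neg h1]
            by_cases h2 : sup a ∩ Z = T
            · rw [if_pos h2, if_pos h2, hq2 a]
              intro h4
              rw [hvis, h2] at h4
              exact h1 h4
            · rw [if_neg h2, if_neg h2]
        rw [Finset.sum_congr rfl e2, Finset.sum_ite_eq, if_pos]
        exact Finset.mem_powerset.2 Finset.inter_subset_right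
    exact gen S
  have claim2 : ∀ σ : Perm P, sign σ = 1 → (∀ i, i ∉ Z → σ i = i) → ∀ T, F (T.image σ) = F T := by
    intro σ h1 h2 T
    have hZσ : Z.image σ = Z := by
      apply Finset.eq_of_subset_of_card_le
      · intro x hx
        obtain ⟨y, hy, rfl⟩ := Finset.mem_image.1 hx
        by_contra hcon
        have : σ (σ y) = σ y := h2 _ hcon
        exact hcon (by rw [σ.injective this]; exact hy)
      · rw [Finset.card_image_of_injective _ σ.injective]
    show (S.map (fun v => if sup v ∩ Z = T.image σ then c v else 0)).sum =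
      (S.map (fun v => if sup v ∩ Z = T then c v else 0)).sum
    conv_lhs => rw [← hS σ h1 h2]
    rw [Multiset.map_map]
    congr 1
    apply Multiset.map_congr rfl
    intro v hv
    simp only [Function.comp]
    have e1 : sup (σ • v) ∩ Z = (sup v ∩ Z).image σ := by
      rw [sup_smul, Finset.image_inter _ _ σ.injective, hZσ]
    rw [e1, hc σ h1 h2 v hv]
    have e2 : ((sup v ∩ Z).image σ = T.image σ) ↔ (sup v ∩ Z = T) :=
      (Finset.image_injective σ.injective).eq_iff
    simp only [e2]
  rw [claim1, Finset.sum_powerset]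
  apply Finset.dvd_sum
  intro k _
  rcases Nat.eq_zero_or_pos k with rfl | hk
  · simp [F']
  by_cases hks : k ≤ s
  · by_cases hne : (Finset.powersetCard k Z).Nonempty
    · obtain ⟨T0, hT0⟩ := hne
      rw [Finset.mem_powersetCard] at hT0
      have : ∀ T ∈ Finset.powersetCard k Z, F' T = F T0 := by
        intro T hT
        rw [Finset.mem_powersetCard] at hT
        have hTne : T ≠ ∅ := by
          rintro rfl
          simp at hT
          omega
        show (if T = ∅ then 0 else F T) = F T0
        rw [if_neg hTne]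
        obtain ⟨σ, h4, h5, h6⟩ := exists_even_image hT0.1 hT.1 (by rw [hT0.2, hT.2]) h3
        rw [← h6, claim2 σ h4 h5]
      rw [Finset.sum_congr rfl this, Finset.sum_const, Finset.card_powersetCard, smul_eq_mul]
      exact Dvd.dvd.mul_right (hD k hk hks) _
    · rw [Finset.not_nonempty_iff_eq_empty] at hne
      rw [hne]; simp
  · have : ∀ T ∈ Finset.powersetCard k Z, F' T = 0 := by
      intro T hT
      rw [Finset.mem_powersetCard] at hT
      show (if T = ∅ then 0 else F T) = 0
      split_ifs with h1
      · rfl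
      · apply Multiset.sum_eq_zero
        intro x hx
        obtain ⟨v, _, rfl⟩ := Multiset.mem_map.1 hx
        rw [if_neg]
        intro h2
        have h4 := hs v
        have h5 := Finset.card_le_card (Finset.inter_subset_left (s₁ := sup v) (s₂ := Z))
        rw [h2, hT.2] at h5
        omega
    rw [Finset.sum_congr rfl this]
    simp

variable (P H) in
/-- standing numerical assumptions -/
structure Room (D : ℕ) (N : Type) [MulAction (Perm P) N] (r s : ℕ) : Prop where
  supp : ∀ u : N, (sup u : Finset P).card ≤ s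
  gap : Fintype.card H + 3 ≤ Fintype.card P
  room : 2 * ((r + 5) * s + 1) ≤ Fintype.card H
  dvd : ∀ t, 1 ≤ t → t ≤ s → D ∣ (Fintype.card P - Fintype.card H).choose t

/-- a node is good if it is true under all full matchings which make it visible -/
def Good (C : Circuit (P × H) D N) (u : N) : Prop :=
  ∀ f : P → Option H, Full f → Vis f u → ev C f u

theorem free_card {f : P → Option H} (hf : Full f) :
    (free f).card = Fintype.card P - Fintype.card H := by
  have := card_free hf
  omega

/-- it suffices to find another matching which agrees on the support -/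
theorem good_of {C : Circuit (P × H) D N} (hC : SymmetricCircuit C) {r s : ℕ}
    (hR : Room P H D N r s) {u : N} {W : (P → Option H) → Finset P}
    (hW : ∀ f, 2 * (W f).card ≤ Fintype.card H) (hu : ∀ f, sup u ⊆ W f)
    (h : ∀ f : P → Option H, Full f → Vis f u →
      ∀ f' : P → Option H, Full f' → (∀ i ∈ W f, f i ≠ none → f' i = f i) →
        (∀ i ∈ W f, f' i ≠ none) → ev C f' u) :
    Good C u := by
  intro f hf hv
  obtain ⟨f', h1, h2, h3, h4⟩ := exists_avoid hf (hW f)
  have h5 := h f hf hv f' h1 h2 h3
  have hM : 2 ≤ (free f).card := by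
    rw [free_card hf]
    have := hR.gap
    omega
  rw [ev_local hC hf h1 hM hv (fun i hi => (h2 i (hu f hi) (hv i hi)).symm)]
  exact h5

theorem two_le_free {r s : ℕ} (hR : Room P H D N r s) {f : P → Option H} (hf : Full f) :
    2 ≤ (free f).card := by
  rw [free_card hf]
  have := hR.gap
  omega

/-- values of nodes visible at two matchings which agree on the supports -/
theorem ev_agree {C : Circuit (P × H) D N} (hC : SymmetricCircuit C) {r s : ℕ}
    (hR : Room P H D N r s) {f f' : P → Option H} (hf : Full f) (hf' : Full f') {u : N}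
    {W : Finset P} (hu : sup u ⊆ W) (hv : Vis f u)
    (h : ∀ i ∈ W, f i ≠ none → f' i = f i) : ev C f u ↔ ev C f' u :=
  ev_local hC hf hf' (two_le_free hR hf) hv (fun i hi => (h i (hu hi) (hv i hi)).symm)

theorem cT_add {C : Circuit (P × H) D N} {f : P → Option H} (S T : Multiset N) :
    cT C f (S + T) = cT C f S + cT C f T := by
  classical
  unfold cT cntOf
  rw [Multiset.countP_add]

theorem cF_add {C : Circuit (P × H) D N} {f : P → Option H} (S T : Multiset N) :
    cF C f (S + T) = cF C f S + cF C f T := by
  classical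
  unfold cF cntOf
  rw [Multiset.countP_add]

theorem cT_zero {C : Circuit (P × H) D N} {f : P → Option H} : cT C f 0 = 0 := by
  classical
  unfold cT cntOf
  simp

theorem cF_zero {C : Circuit (P × H) D N} {f : P → Option H} : cF C f 0 = 0 := by
  classical
  unfold cF cntOf
  simp

theorem cT_bind {C : Circuit (P × H) D N} {f : P → Option H} {ι : Type} (ms : Multiset ι)
    (Θ : ι → Multiset N) : cT C f (ms.bind Θ) = (ms.map (fun i => cT C f (Θ i))).sum := by
  induction ms using Multiset.induction_on with
  | empty => simp [cT_zero]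
  | cons a ms ih => rw [Multiset.cons_bind, cT_add, ih, Multiset.map_cons, Multiset.sum_cons]

theorem cF_bind {C : Circuit (P × H) D N} {f : P → Option H} {ι : Type} (ms : Multiset ι)
    (Θ : ι → Multiset N) : cF C f (ms.bind Θ) = (ms.map (fun i => cF C f (Θ i))).sum := by
  induction ms using Multiset.induction_on with
  | empty => simp [cF_zero]
  | cons a ms ih => rw [Multiset.cons_bind, cF_add, ih, Multiset.map_cons, Multiset.sum_cons]

open Classical in
theorem cT_map_vis {C : Circuit (P × H) D N} {f : P → Option H} (fs : Multiset ℕ) (θ : ℕ → N)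
    (h : ∀ i ∈ fs, Vis f (θ i)) :
    cT C f (fs.map θ) = Multiset.card (fs.filter (fun i => decide (ev C f (θ i)) = true)) := by
  unfold cT cntOf
  rw [Multiset.countP_map]
  congr 1
  apply Multiset.filter_congr
  intro i hi
  simp [h i hi]

open Classical in
theorem cntOf_map_vis {f : P → Option H} (w : N → Prop) (fs : Multiset ℕ) (θ : ℕ → N)
    (h : ∀ i ∈ fs, Vis f (θ i)) :
    cntOf f w (fs.map θ) = Multiset.card (fs.filter (fun i => w (θ i))) := by
  unfold cntOf
  rw [Multiset.countP_map]
  congr 1
  apply Multiset.filter_congr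
  intro i hi
  simp [h i hi]

open Classical in
theorem cF_map_vis {C : Circuit (P × H) D N} {f : P → Option H} (fs : Multiset ℕ) (θ : ℕ → N)
    (h : ∀ i ∈ fs, Vis f (θ i)) :
    cF C f (fs.map θ) = Multiset.card (fs.filter (fun i => decide (ev C f (θ i)) = false)) := by
  refine (cntOf_map_vis (fun v => ¬ ev C f v) fs θ h).trans ?_
  simp only [decide_eq_false_iff_not]
  congr!

open Classical in
theorem sch_eval {C : Circuit (P × H) D N} {θ : ℕ → N} {Θ : ℕ → Multiset N} (S : Sch D) :
    ∀ u, S.Inst C θ Θ u → ∃ L : Finset N, L.card ≤ S.size ∧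
      ∀ f : P → Option H, (∀ v ∈ L, Vis f v) →
        (ev C f u ↔ S.Holds (fun i => decide (ev C f (θ i))) (fun i => cT C f (Θ i))
          (fun i => cF C f (Θ i))) := by
  induction S with
  | fv i =>
    intro u hu
    have hu' : u = θ i := hu
    refine ⟨∅, by simp, ?_⟩
    intro f _
    rw [hu']
    show _ ↔ decide (ev C f (θ i)) = true
    simp
  | imp a b iha ihb =>
    rintro u ⟨v, w, h1, h2, h3⟩
    obtain ⟨L1, hL1, h4⟩ := iha v h2
    obtain ⟨L2, hL2, h5⟩ := ihb w h3
    refine ⟨L1 ∪ L2, ?_, ?_⟩
    · have := Finset.card_union_le L1 L2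
      show _ ≤ a.size + b.size + 1
      omega
    · intro f hf
      rw [ev_imp h1, h4 f (fun v hv => hf v (Finset.mem_union_left _ hv)),
        h5 f (fun v hv => hf v (Finset.mem_union_right _ hv))]
      rfl
  | gate g fs ms =>
    intro u hu
    have hu' : C.kind u = .gate g (fs.map θ + ms.bind Θ) := hu
    refine ⟨(fs.map θ).toFinset, ?_, ?_⟩
    · refine (Multiset.toFinset_card_le _).trans ?_
      rw [Multiset.card_map]
      show _ ≤ Multiset.card fs + 1
      omega
    · intro f hf
      have hv : ∀ i ∈ fs, Vis f (θ i) := fun i hi =>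
        hf _ (Multiset.mem_toFinset.2 (Multiset.mem_map_of_mem _ hi))
      rw [ev_gate hu', cT_add, cF_add, cT_bind, cF_bind, cT_map_vis fs θ hv, cF_map_vis fs θ hv]
      rfl

theorem card_biUnion_le' {r s : ℕ} (hR : Room P H D N r s) (L : Finset N) :
    (L.biUnion (fun v => (sup v : Finset P))).card ≤ L.card * s := by
  exact Finset.card_biUnion_le_card_mul _ _ _ (fun v _ => hR.supp v)

theorem good_ax {C : Circuit (P × H) D N} (hC : SymmetricCircuit C) {r s : ℕ}
    (hR : Room P H D N r s) (S : Sch D) (θ : ℕ → N) (Θ : ℕ → Multiset N) (u : N)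
    (hS : S.Sound) (hr : S.size ≤ r) (hI : S.Inst C θ Θ u) : Good C u := by
  classical
  obtain ⟨L, hL, h⟩ := sch_eval (P := P) (H := H) S u hI
  apply good_of hC hR (W := fun _ => sup u ∪ L.biUnion (fun v => sup v))
  · intro _
    have h1 := Finset.card_union_le (sup u : Finset P) (L.biUnion (fun v => sup v))
    have h2 := card_biUnion_le' hR L
    have h3 := hR.supp u
    have h4 := hR.room
    have h5 : L.card * s ≤ r * s := Nat.mul_le_mul_right _ (hL.trans hr)
    nlinarith
  · intro _; exact Finset.subset_union_left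
  · intro f hf hv f' hf' _ h2
    rw [h f']
    · exact hS _ _ _
    · intro v hv i hi
      exact h2 i (Finset.mem_union_right _ (Finset.mem_biUnion.2 ⟨v, hv, hi⟩))

theorem card3 {r s : ℕ} (hR : Room P H D N r s) (a b c : N) :
    2 * (sup a ∪ sup b ∪ sup c : Finset P).card ≤ Fintype.card H := by
  have h1 := Finset.card_union_le (sup a ∪ sup b : Finset P) (sup c)
  have h2 := Finset.card_union_le (sup a : Finset P) (sup b)
  have h3 := hR.supp a
  have h4 := hR.supp b
  have h5 := hR.supp c
  have h6 := hR.room
  nlinarith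

theorem card4 {r s : ℕ} (hR : Room P H D N r s) (a b c d : N) :
    2 * (sup a ∪ sup b ∪ sup c ∪ sup d : Finset P).card ≤ Fintype.card H := by
  have h1 := Finset.card_union_le (sup a ∪ sup b : Finset P) (sup c)
  have h2 := Finset.card_union_le (sup a : Finset P) (sup b)
  have h0 := Finset.card_union_le (sup a ∪ sup b ∪ sup c : Finset P) (sup d)
  have h3 := hR.supp a
  have h4 := hR.supp b
  have h5 := hR.supp c
  have h7 := hR.supp d
  have h6 := hR.room
  nlinarith

theorem good_mp {C : Circuit (P × H) D N} (hC : SymmetricCircuit C) {r s : ℕ}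
    (hR : Room P H D N r s) {a b u : N} (hu : C.kind u = .imp a b) (ha : Good C a)
    (hg : Good C u) : Good C b := by
  apply good_of hC hR (W := fun _ => sup a ∪ sup b ∪ sup u) (fun _ => card3 hR a b u)
  · intro _ i hi; simp [hi]
  · intro f hf hv f' hf' _ h2
    have h3 := hg f' hf' (fun i hi => h2 i (by simp [hi]))
    rw [ev_imp hu] at h3
    exact h3 (ha f' hf' (fun i hi => h2 i (by simp [hi])))

/-- if `v` is visible and false, and `a` true, then the implication `a → v` is not good -/
theorem imp_transfer {C : Circuit (P × H) D N} (hC : SymmetricCircuit C) {r s : ℕ}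
    (hR : Room P H D N r s) {a v u : N} (hu : C.kind u = .imp a v) (hg : Good C u)
    {f : P → Option H} (hf : Full f) (hva : Vis f a) (hvv : Vis f v) (ha : ev C f a) :
    ev C f v := by
  obtain ⟨f', h1, h2, h3, _⟩ := exists_avoid hf (card3 hR a v u)
  have h4 := hg f' h1 (fun i hi => h3 i (by simp [hi]))
  rw [ev_imp hu] at h4
  rw [ev_agree hC hR hf h1 (W := sup a ∪ sup v ∪ sup u) (by intro i hi; simp [hi]) hvv h2]
  apply h4
  rwa [← ev_agree hC hR hf h1 (W := sup a ∪ sup v ∪ sup u) (by intro i hi; simp [hi]) hva h2]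

theorem cntOf_pos {f : P → Option H} {w : N → Prop} {S : Multiset N} :
    0 < cntOf f w S ↔ ∃ v ∈ S, Vis f v ∧ w v := by
  classical
  unfold cntOf
  rw [Multiset.countP_pos]

theorem cF_pos {C : Circuit (P × H) D N} {f : P → Option H} {S : Multiset N} :
    0 < cF C f S ↔ ∃ v ∈ S, Vis f v ∧ ¬ ev C f v := cntOf_pos

theorem cT_pos {C : Circuit (P × H) D N} {f : P → Option H} {S : Multiset N} :
    0 < cT C f S ↔ ∃ v ∈ S, Vis f v ∧ ev C f v := cntOf_pos

theorem ev_and {C : Circuit (P × H) D N} {f : P → Option H} {w : N} {S : Multiset N}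
    (hw : C.kind w = .gate (gAnd D) S) : ev C f w ↔ ∀ v ∈ S, Vis f v → ev C f v := by
  rw [ev_gate hw]
  show (!decide (0 < cF C f S)) = true ↔ _
  rw [Bool.not_eq_true', decide_eq_false_iff_not, cF_pos]
  push Not
  rfl

theorem ev_or {C : Circuit (P × H) D N} {f : P → Option H} {w : N} {S : Multiset N}
    (hw : C.kind w = .gate (gOr D) S) : ev C f w ↔ ∃ v ∈ S, Vis f v ∧ ev C f v := by
  rw [ev_gate hw]
  show decide (0 < cT C f S) = true ↔ _
  rw [decide_eq_true_eq, cT_pos]

theorem ev_mod {C : Circuit (P × H) D N} {f : P → Option H} {w : N} {S : Multiset N}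
    (hw : C.kind w = .gate (gMod D) S) : ev C f w ↔ D ∣ cT C f S := by
  rw [ev_gate hw]
  show decide (((cT C f S : ℕ) : ZMod D) = 0) = true ↔ _
  rw [decide_eq_true_eq, ZMod.natCast_eq_zero_iff]

theorem good_all {C : Circuit (P × H) D N} (hC : SymmetricCircuit C) {r s : ℕ}
    (hR : Room P H D N r s) {e a w : N} {S : Multiset N} {i : N → N}
    (he : C.kind e = .imp a w) (hw : C.kind w = .gate (gAnd D) S)
    (hi : ∀ v ∈ S, C.kind (i v) = .imp a v) (hg : ∀ v ∈ S, Good C (i v)) : Good C e := by
  apply good_of hC hR (W := fun _ => sup e ∪ sup a ∪ sup w) (fun _ => card3 hR e a w)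
  · intro _ j hj; simp [hj]
  · intro f hf hv f' hf' _ h2
    rw [ev_imp he]
    intro h3
    rw [ev_and hw]
    intro v hvS hvv
    exact imp_transfer hC hR (hi v hvS) (hg v hvS) hf' (fun j hj => h2 j (by simp [hj])) hvv h3

theorem good_any {C : Circuit (P × H) D N} (hC : SymmetricCircuit C) {r s : ℕ}
    (hR : Room P H D N r s) {e a w : N} {S : Multiset N} {i : N → N}
    (he : C.kind e = .imp w a) (hw : C.kind w = .gate (gOr D) S)
    (hi : ∀ v ∈ S, C.kind (i v) = .imp v a) (hg : ∀ v ∈ S, Good C (i v)) : Good C e := by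
  apply good_of hC hR (W := fun _ => sup e ∪ sup a ∪ sup w) (fun _ => card3 hR e a w)
  · intro _ j hj; simp [hj]
  · intro f hf hv f' hf' _ h2
    rw [ev_imp he]
    intro h3
    rw [ev_or hw] at h3
    obtain ⟨v, hvS, hvv, h4⟩ := h3
    exact imp_transfer hC hR (hi v hvS) (hg v hvS) hf' hvv (fun j hj => h2 j (by simp [hj])) h4

theorem tr_of_free {f : P → Option H} {σ : Perm P} (h : ∀ i, i ∉ free f → σ i = i) :
    tr σ f = f := by
  funext i
  show f (σ⁻¹ i) = f i
  by_cases hi : i ∈ free f
  · have h1 : σ⁻¹ i ∈ free f := by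
      by_contra hcon
      have h2 := h _ hcon
      rw [show σ (σ⁻¹ i) = i by simp] at h2
      rw [← h2] at hcon
      exact hcon hi
    rw [mem_free] at hi h1
    rw [hi, h1]
  · have h1 := h i hi
    have h2 : σ⁻¹ i = i := by
      rw [Perm.inv_eq_iff_eq]; exact h1.symm
    rw [h2]

theorem good_sum {C : Circuit (P × H) D N} (hC : SymmetricCircuit C) {r s : ℕ}
    (hR : Room P H D N r s) {e w G : N} {S : Multiset N} {Γ : N → Multiset N}
    (he : C.kind e = .imp w G) (hw : C.kind w = .gate (gAnd D) S)
    (hS : ∀ v ∈ S, C.kind v = .gate (gMod D) (Γ v))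
    (hG : C.kind G = .gate (gMod D) (S.bind Γ)) : Good C e := by
  classical
  apply good_of hC hR (W := fun _ => sup e ∪ sup w ∪ sup G) (fun _ => card3 hR e w G)
  · intro _ j hj; simp [hj]
  · intro f hf hv f' hf' _ h2
    rw [ev_imp he]
    intro h3
    rw [ev_and hw] at h3
    rw [ev_mod hG, cT_bind]
    have hPc : 2 ≤ Fintype.card P := by have := hR.gap; omega
    -- even permutations of the unmatched pigeons fix `w`
    have hfix : ∀ σ : Perm P, sign σ = 1 → (∀ i, i ∉ free f' → σ i = i) → σ • w = w := by
      intro σ h4 h5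
      apply smul_eq_self hPc h4
      intro a ha
      apply h5
      rw [mem_free]
      exact h2 a (by simp [ha])
    have hSinv : ∀ σ : Perm P, sign σ = 1 → (∀ i, i ∉ free f' → σ i = i) →
        S.map (σ • ·) = S := by
      intro σ h4 h5
      have h6 := hC σ w
      rw [hfix σ h4 h5, hw] at h6
      have h7 : Kind.gate (V := P × H) (gAnd D) S = Kind.gate (gAnd D) (S.map (σ • ·)) := h6
      injection h7 with _ h8
      exact h8.symm
    have hcinv : ∀ σ : Perm P, sign σ = 1 → (∀ i, i ∉ free f' → σ i = i) → ∀ v ∈ S,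
        cT C f' (Γ (σ • v)) = cT C f' (Γ v) := by
      intro σ h4 h5 v hvS
      have hmem : σ • v ∈ S := by
        rw [← hSinv σ h4 h5]
        exact Multiset.mem_map_of_mem _ hvS
      have h6 := hC σ v
      rw [hS v hvS, hS _ hmem] at h6
      have h7 : Kind.gate (V := P × H) (gMod D) (Γ (σ • v)) =
        Kind.gate (gMod D) ((Γ v).map (σ • ·)) := h6
      injection h7 with _ h8
      rw [h8]
      have h9 : cT C (tr σ f') ((Γ v).map (σ • ·)) = cT C f' (Γ v) :=
        cntOf_map σ f' _ _ _ (fun x _ => ev_smul hC σ f' x)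
      rwa [tr_of_free h5] at h9
    -- split into visible and invisible elements
    have hsplit : (S.map (fun v => cT C f' (Γ v))).sum =
        (S.map (fun v => if Vis f' v then cT C f' (Γ v) else 0)).sum +
        (S.map (fun v => if Vis f' v then 0 else cT C f' (Γ v))).sum := by
      rw [← Multiset.sum_map_add]
      congr 1
      apply Multiset.map_congr rfl
      intro v _
      split_ifs <;> simp
    rw [hsplit]
    apply Dvd.dvd.add
    · apply Multiset.dvd_sum
      intro x hx
      obtain ⟨v, hvS, rfl⟩ := Multiset.mem_map.1 hx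
      by_cases hvis : Vis f' v
      · rw [if_pos hvis, ← ev_mod (hS v hvS)]
        exact h3 v hvS hvis
      · rw [if_neg hvis]; exact dvd_zero _
    · have hfc := free_card hf'
      apply dvd_invisible (c := fun v => cT C f' (Γ v)) (s := s) hSinv hcinv
      · intro t h4 h5
        rw [hfc]; exact hR.dvd t h4 h5
      · exact hR.supp
      · rw [hfc]; have := hR.gap; omega
      · intro v hvis; rw [if_pos hvis]
      · intro v hvis; rw [if_neg hvis]

theorem ev_neg {C : Circuit (P × H) D N} {f : P → Option H} {w b : N}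
    (hw : C.kind w = .gate (gNeg D) {b}) (hb : Vis f b) : ev C f w ↔ ¬ ev C f b := by
  rw [ev_gate hw]
  show (!decide (0 < cT C f {b})) = true ↔ _
  rw [Bool.not_eq_true', decide_eq_false_iff_not, cT_pos]
  simp [hb]

theorem good_hyp {C : Circuit (P × H) D N} (hC : SymmetricCircuit C) {r s : ℕ}
    (hR : Room P H D N r s) {u : N} (hu : PhpHyp C u) : Good C u := by
  classical
  have key : ∀ (S : Multiset N) (i : P) (j : H), (∃ v ∈ S, C.kind v = .var (i, j)) →
      C.kind u = .gate (gOr D) S → ∀ f : P → Option H, Full f → Vis f u → f i = some j →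
      ev C f u := by
    rintro S i j ⟨v, hvS, hv⟩ hu f hf hvu hfi
    obtain ⟨f', h1, h2, h3, _⟩ := exists_avoid hf (W := sup u ∪ {i} ∪ sup v) (by
      have h1 := Finset.card_union_le (sup u ∪ {i} : Finset P) (sup v)
      have h2 := Finset.card_union_le (sup u : Finset P) {i}
      have h3 := hR.supp u
      have h4 := hR.supp v
      have h6 := hR.room
      rw [Finset.card_singleton] at h2
      nlinarith)
    rw [ev_agree hC hR hf h1 (W := sup u ∪ {i} ∪ sup v) (by intro i hi; simp [hi]) hvu h2, ev_or hu]
    refine ⟨v, hvS, fun a ha => h3 a (by simp [ha]), ?_⟩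
    rw [ev_var hv]
    show f' i = some j
    rw [h2 i (by simp) (by rw [hfi]; simp), hfi]
  cases hu with
  | pigeon S i hu hS =>
    intro f hf hv
    obtain ⟨f', h1, h2, h3, _⟩ := exists_avoid hf (W := sup u ∪ {i}) (by
      have h2 := Finset.card_union_le (sup u : Finset P) {i}
      have h3 := hR.supp u
      have h6 := hR.room
      rw [Finset.card_singleton] at h2
      nlinarith)
    rw [ev_agree hC hR hf h1 (W := sup u ∪ {i}) (by intro i hi; simp [hi]) hv h2]
    obtain ⟨j, hj⟩ := Option.ne_none_iff_exists'.1 (h3 i (by simp))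
    refine key S i j ?_ hu f' h1 (fun a ha => h3 a (by simp [ha])) hj
    have : Kind.var (i, j) ∈ S.map C.kind := by
      rw [hS]
      exact Multiset.mem_map.2 ⟨j, by simp, rfl⟩
    obtain ⟨v, h4, h5⟩ := Multiset.mem_map.1 this
    exact ⟨v, h4, h5⟩
  | hole S j hu hS =>
    intro f hf hv
    obtain ⟨i, hi, _⟩ := hf j
    refine key S i j ?_ hu f hf hv hi
    have : Kind.var (i, j) ∈ S.map C.kind := by
      rw [hS]
      exact Multiset.mem_map.2 ⟨i, by simp, rfl⟩
    obtain ⟨v, h4, h5⟩ := Multiset.mem_map.1 this
    exact ⟨v, h4, h5⟩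
  | fn a b' b i j j' hu hb' ha hb hne =>
    apply good_of hC hR (W := fun _ => sup u ∪ sup a ∪ sup b' ∪ sup b)
      (fun _ => card4 hR u a b' b)
    · intro _ j hj; simp [hj]
    · intro f hf hv f' hf' _ h2
      rw [ev_imp hu, ev_neg hb' (fun i hi => h2 i (by simp [hi])), ev_var ha, ev_var hb]
      intro h3 h4
      simp only at h3 h4
      rw [h3] at h4
      exact hne (Option.some_injective _ h4)
  | inj a b' b i i' j hu hb' ha hb hne =>
    apply good_of hC hR (W := fun _ => sup u ∪ sup a ∪ sup b' ∪ sup b)
      (fun _ => card4 hR u a b' b)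
    · intro _ j hj; simp [hj]
    · intro f hf hv f' hf' _ h2
      rw [ev_imp hu, ev_neg hb' (fun i hi => h2 i (by simp [hi])), ev_var ha, ev_var hb]
      intro h3 h4
      exact hne (hf'.inj h3 h4)

theorem good_der {C : Circuit (P × H) D N} (hC : SymmetricCircuit C) {r s : ℕ}
    (hR : Room P H D N r s) {u : N} (hu : Der C r (PhpHyp C) u) : Good C u := by
  induction hu with
  | hyp u h => exact good_hyp hC hR h
  | ax S θ Θ u h1 h2 h3 => exact good_ax hC hR S θ Θ u h1 h2 h3
  | mp a b u h _ _ ih1 ih2 => exact good_mp hC hR h ih1 ih2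
  | all e a w S i h1 h2 h3 _ ih => exact good_all hC hR h1 h2 h3 ih
  | any e a w S i h1 h2 h3 _ ih => exact good_any hC hR h1 h2 h3 ih
  | sum e w G S Γ h1 h2 h3 h4 => exact good_sum hC hR h1 h2 h3 h4

theorem exists_full (h : Fintype.card H ≤ Fintype.card P) : ∃ f : P → Option H, Full f := by
  classical
  obtain ⟨m⟩ : Nonempty (H ↪ P) := Function.Embedding.nonempty_of_card_le h
  refine ⟨fun i => if h : ∃ j, m j = i then some h.choose else none, ?_⟩
  intro j
  refine ⟨m j, ?_, ?_⟩
  · have h1 : ∃ j', m j' = m j := ⟨j, rfl⟩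
    show (if h : ∃ j', m j' = m j then some h.choose else none) = some j
    rw [dif_pos h1]
    exact congrArg some (m.injective h1.choose_spec)
  · intro i hi
    have hi' : (if h : ∃ j', m j' = i then some h.choose else none) = some j := hi
    by_cases h1 : ∃ j', m j' = i
    · rw [dif_pos h1] at hi'
      have h2 := Option.some_injective _ hi'
      rw [← h2]; exact h1.choose_spec.symm
    · rw [dif_neg h1] at hi'
      simp at hi'

theorem no_refutation {C : Circuit (P × H) D N} (hC : SymmetricCircuit C) {r s : ℕ}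
    (hR : Room P H D N r s) : ¬ RefutesPhp C r := by
  rintro ⟨u, hu, hd⟩
  have hg := good_der hC hR hd
  obtain ⟨f, hf⟩ := exists_full (P := P) (H := H) (by have := hR.gap; omega)
  obtain ⟨f', h1, _, h3, _⟩ := exists_avoid hf (W := sup u) (by
    have h3 := hR.supp u
    have h6 := hR.room
    nlinarith)
  have := hg f' h1 h3
  rw [ev_or hu] at this
  simp at this

end

/-- **Main theorem.** -/
theorem symmetric_mod_lower_bound (D r n M s : ℕ) (hM : 3 ≤ M)
    (hD : ∀ t, 1 ≤ t → t ≤ s → D ∣ M.choose t)
    (N : Type) [Fintype N] [MulAction (Perm (Fin (n + M))) N]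
    (C : Circuit (Fin (n + M) × Fin n) D N) (hC : SymmetricCircuit C) (href : RefutesPhp C r) :
    2 ^ (min s n / (6 * r + 40)) ≤ Fintype.card N := by
  classical
  by_contra hcon
  push Not at hcon
  set t := min s n / (6 * r + 40) with ht
  have hmul : (6 * r + 40) * t ≤ min s n := Nat.mul_div_le _ _
  have hts : (6 * r + 40) * t ≤ s := hmul.trans (min_le_left _ _)
  have htn : (6 * r + 40) * t ≤ n := hmul.trans (min_le_right _ _)
  have hpos : 0 < t := by
    rcases Nat.eq_zero_or_pos t with h | h
    · rw [h] at hcon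
      obtain ⟨u, _⟩ := href
      have : 0 < Fintype.card N := Fintype.card_pos_iff.2 ⟨u⟩
      simp at hcon
      omega
    · exact h
  refine no_refutation (P := Fin (n + M)) (H := Fin n) (s := 3 * t) hC ?_ href
  constructor
  · intro u
    have h1 := sup_card_lt (P := Fin (n + M)) hcon (by
      rw [Fintype.card_fin]
      nlinarith) u
    omega
  · rw [Fintype.card_fin, Fintype.card_fin]; omega
  · rw [Fintype.card_fin]
    nlinarith
  · intro k h1 h2
    rw [Fintype.card_fin, Fintype.card_fin, Nat.add_sub_cancel_left]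
    exact hD k h1 (by nlinarith)

end Pool.Agent.H66.SM
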