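import Pool.Agent.H66.SM.Sound

/-!
Exponential lower bound for symmetric Frege proofs with modular counting gates.
-/

namespace Pool.Agent.Results.MP_576eff_lc.SymmetricModFrege

open Pool.Agent.H66.SM

/-- Let `D` be any modulus and let `s`, `M` be such that `D` divides the binomial coefficients
`M.choose t` for `1 ≤ t ≤ s` (for instance `D` prime, `M = D ^ k` and `s = M - 1`).  Every
circuit over the variables of the bijective pigeonhole principle with `n + M` pigeons and `n`
holes, with unordered gates of unbounded fan-in which may count modulo `D`, which is closed under
the permutations of the pigeons and contains a refutation by sound schemes of size at most `r`,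
modus ponens, unbounded conjunction and disjunction rules and the sum axiom has at least
`2 ^ (min s n / (6 * r + 40))` nodes. -/
theorem result (D r n M s : ℕ) (hM : 3 ≤ M) (hD : ∀ t, 1 ≤ t → t ≤ s → D ∣ M.choose t)
    (N : Type) [Fintype N] [MulAction (Equiv.Perm (Fin (n + M))) N]
    (C : Circuit (Fin (n + M) × Fin n) D N) (hsym : SymmetricCircuit C)
    (href : RefutesPhp C r) : 2 ^ (min s n / (6 * r + 40)) ≤ Fintype.card N :=
  symmetric_mod_lower_bound D r n M s hM hD N C hsym href

end Pool.Agent.Results.MP_576eff_lc.SymmetricModFrege
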